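import Pool.Agent.N848.OL.Stm

/-! Project OL (helper848), part EXV: the field of discriminant 148 is `5`-rational (assembly).
Adapted from `Pool.Agent.N942.LT.EXE` (helper942). -/

set_option autoImplicit false

namespace Pool.Agent.N806.OL.EXV

open NumberField IsDedekindDomain Module Pool.Agent.N848.OL
open Pool.Agent.N848.LT (S_EXP S_EXR)

/-- In a principal ideal ring of integers an element with all valuations divisible by `5` is a unit
times a fifth power. -/
theorem five_val (k : Type) [Field k] [NumberField k] (hP : IsPrincipalIdealRing (𝓞 k)) :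
    ∀ m : 𝓞 k, m ≠ 0 →
      (∀ v : HeightOneSpectrum (𝓞 k), ∃ y : k, v.valuation k ((m : k) * y ^ 5) = 1) →
      ∃ (η : (𝓞 k)ˣ) (w : 𝓞 k), w ≠ 0 ∧ m = η * w ^ 5 := by
  intro m
  induction m using (IsWellFounded.wf (α := 𝓞 k) (r := DvdNotUnit)).induction with
  | _ m ih =>
  intro hm hv
  by_cases hu : IsUnit m
  · obtain ⟨u, rfl⟩ := hu
    exact ⟨u, 1, one_ne_zero, by simp⟩
  · obtain ⟨p, hp, hpm⟩ := WfDvdMonoid.exists_irreducible_factor hu hm
    have hpp : Prime p := hp.prime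
    have hmax : (Ideal.span {p}).IsPrime := (Ideal.span_singleton_prime hpp.ne_zero).2 hpp
    let v : HeightOneSpectrum (𝓞 k) := ⟨Ideal.span {p}, hmax, by
      rw [Ne, Ideal.span_singleton_eq_bot]; exact hpp.ne_zero⟩
    obtain ⟨y, hy⟩ := hv v
    have hmk : (m : k) ≠ 0 := by
      intro h
      exact hm (RingOfIntegers.coe_eq_zero_iff.1 h)
    have hy0 : y ≠ 0 := by
      rintro rfl
      simp at hy
    have hvm0 : v.valuation k (m : k) ≠ 0 := (Valuation.ne_zero_iff _).2 hmk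
    have hvy0 : v.valuation k y ≠ 0 := (Valuation.ne_zero_iff _).2 hy0
    have hlog : (v.valuation k (m : k)).log + 5 * (v.valuation k y).log = 0 := by
      have h := congrArg WithZero.log hy
      rw [map_mul, map_pow, WithZero.log_mul hvm0 (pow_ne_zero _ hvy0), WithZero.log_pow,
        WithZero.log_one, nsmul_eq_mul] at h
      exact_mod_cast h
    have hlt : v.valuation k (m : k) < 1 := by
      rw [v.valuation_lt_one_iff_mem]
      exact Ideal.mem_span_singleton.2 hpm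
    have hlt' : (v.valuation k (m : k)).log < 0 := by
      rw [← WithZero.log_one (M := ℤ)]
      exact (WithZero.log_lt_log hvm0 one_ne_zero).2 hlt
    have hle : (v.valuation k (m : k)).log ≤ -(5 : ℕ) := by
      push_cast
      omega
    have hle' : v.valuation k (m : k) ≤ WithZero.exp (-(5 : ℕ) : ℤ) :=
      WithZero.le_exp_of_log_le hle
    have hmem : m ∈ v.asIdeal ^ 5 := by
      rw [← v.intValuation_le_pow_iff_mem]
      rwa [v.valuation_of_algebraMap] at hle'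
    have hdvd : p ^ 5 ∣ m := by
      have : v.asIdeal ^ 5 = Ideal.span {p ^ 5} := by
        show Ideal.span {p} ^ 5 = _
        rw [Ideal.span_singleton_pow]
      rw [this, Ideal.mem_span_singleton] at hmem
      exact hmem
    obtain ⟨m', hm'⟩ := hdvd
    have hm'0 : m' ≠ 0 := by
      rintro rfl
      exact hm (by rw [hm', mul_zero])
    have hdn : DvdNotUnit m' m := by
      refine ⟨hm'0, p ^ 5, ?_, by rw [hm', mul_comm]⟩
      rw [isUnit_pow_iff (by norm_num : (5 : ℕ) ≠ 0)]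
      exact hp.not_isUnit
    obtain ⟨η, w, hw0, hw⟩ := ih m' hdn hm'0 (fun v' => by
      obtain ⟨z, hz⟩ := hv v'
      refine ⟨(p : k) * z, ?_⟩
      rw [← hz]
      congr 1
      rw [hm']
      push_cast
      ring)
    exact ⟨η, p * w, mul_ne_zero hpp.ne_zero hw0, by rw [hm', hw]; ring⟩

theorem unP_pow {k : Type} [Field k] [NumberField k] (v : HeightOneSpectrum (𝓞 k)) (x t : k)
    (h : UnP 5 v (x * t ^ 5)) : UnP 5 v x := by
  obtain ⟨y, h1, h2⟩ := h
  refine ⟨t * y, ?_, ?_⟩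
  · rw [mul_pow, ← mul_assoc]
    exact h1
  · rw [mul_pow, ← mul_assoc]
    exact h2

theorem unP_of_pow {k : Type} [Field k] [NumberField k] (v : HeightOneSpectrum (𝓞 k)) (t : k)
    (h : t ≠ 0) : UnP 5 v (t ^ 5) := by
  refine ⟨t⁻¹, ?_, ?_⟩
  · rw [← mul_pow, mul_inv_cancel₀ h, one_pow, map_one]
  · rw [← mul_pow, mul_inv_cancel₀ h, one_pow, sub_self, map_zero]
    exact zero_le

theorem t_EXV (hEXP : Pool.Agent.N848.LT.S_EXP) (hEXR : Pool.Agent.N848.LT.S_EXR) (hEXF : S_EXF)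
    (hEXG : S_EXG) : S_EXV := by
  intro k _ _ α hfin hα b hb hun
  obtain ⟨hP, -⟩ := hEXP k α hfin hα
  obtain ⟨hR, -⟩ := hEXR.2 k α hfin hα
  -- the units
  have hint : IsIntegral ℤ α := by
    refine ⟨Polynomial.X ^ 3 - Polynomial.X ^ 2 - 3 * Polynomial.X + 1, ?_, ?_⟩
    · monicity!
    · simp only [Polynomial.eval₂_add, Polynomial.eval₂_sub, Polynomial.eval₂_mul,
        Polynomial.eval₂_pow, Polynomial.eval₂_X, Polynomial.eval₂_one, Polynomial.eval₂_ofNat]
      exact hα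
  let A : 𝓞 k := ⟨α, hint⟩
  have hA : A ^ 3 - A ^ 2 - 3 * A + 1 = 0 := by
    apply RingOfIntegers.ext
    push_cast
    exact hα
  let u1 : (𝓞 k)ˣ := Units.mkOfMulEqOne A (3 + A - A ^ 2) (by linear_combination -hA)
  let u2 : (𝓞 k)ˣ := Units.mkOfMulEqOne (A - 2) (A ^ 2 + A - 1) (by linear_combination hA)
  let e : Fin 2 → (𝓞 k)ˣ := ![u1, u2]
  have hprod : ∀ a : Fin 2 → Fin 5, ((∏ i, e i ^ (a i : ℕ) : (𝓞 k)ˣ) : k) =
      α ^ (a 0 : ℕ) * (α - 2) ^ (a 1 : ℕ) := by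
    intro a
    rw [Fin.prod_univ_two]
    simp only [e, Matrix.cons_val_zero, Matrix.cons_val_one]
    push_cast
    rfl
  have hnot : ∀ a : Fin 2 → Fin 5, a ≠ 0 →
      ¬ ∀ v : HeightOneSpectrum (𝓞 k), (5 : 𝓞 k) ∈ v.asIdeal →
        UnP 5 v ((∏ i, e i ^ (a i : ℕ) : (𝓞 k)ˣ) : k) := by
    intro a ha
    rw [hprod]
    refine hEXF k α hfin hα _ _ (a 0).isLt (a 1).isLt ?_
    rintro ⟨e0, e1⟩
    apply ha
    funext i
    fin_cases i
    · exact Fin.ext e0
    · exact Fin.ext e1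
  -- `b` is a unit times a fifth power
  obtain ⟨c, d, hd, hcd⟩ := IsFractionRing.div_surjective (A := 𝓞 k) b
  have hd0 : d ≠ 0 := nonZeroDivisors.ne_zero hd
  have hdk : (d : k) ≠ 0 := fun h => hd0 (RingOfIntegers.coe_eq_zero_iff.1 h)
  have hbd : ((c * d ^ 4 : 𝓞 k) : k) = b * (d : k) ^ 5 := by
    rw [← hcd]
    push_cast
    field_simp
  have hm0 : c * d ^ 4 ≠ 0 := by
    intro h
    rw [h] at hbd
    have : b * (d : k) ^ 5 = 0 := by rw [← hbd]; rfl
    exact mul_ne_zero hb (pow_ne_zero 5 hdk) this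
  obtain ⟨η, w, hw0, hw⟩ := five_val k hP (c * d ^ 4) hm0 (fun v => by
    obtain ⟨y, hy, -⟩ := hun v
    refine ⟨y * (d : k)⁻¹, ?_⟩
    rw [← hy, hbd]
    congr 1
    field_simp)
  obtain ⟨a, w', hw'⟩ := hEXG k hfin hR e (fun a ha hs => by
    obtain ⟨r, hr⟩ := hs
    apply hnot a ha
    intro v _
    rw [hr]
    have : (((r ^ 5 : (𝓞 k)ˣ) : 𝓞 k) : k) = ((r : 𝓞 k) : k) ^ 5 := by
      push_cast
      ring
    have h7 := unP_of_pow v ((r : 𝓞 k) : k)
      (fun h => r.ne_zero (RingOfIntegers.coe_eq_zero_iff.1 h))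
    rw [← this] at h7
    exact h7) η
  have hfinal : b = ((∏ i, e i ^ (a i : ℕ) : (𝓞 k)ˣ) : k) *
      (((w' : 𝓞 k) : k) * (w : k) * (d : k)⁻¹) ^ 5 := by
    have h5 : ((c * d ^ 4 : 𝓞 k) : k) = (((η : 𝓞 k) * w ^ 5 : 𝓞 k) : k) := by rw [hw]
    rw [hbd, hw'] at h5
    push_cast at h5 ⊢
    rw [mul_pow, inv_pow, ← mul_assoc]
    rw [eq_mul_inv_iff_mul_eq₀ (pow_ne_zero 5 hdk), h5]
    ring
  by_cases ha : a = 0
  · rw [hfinal, ha]
    have : ((∏ i, e i ^ ((0 : Fin 2 → Fin 5) i : ℕ) : (𝓞 k)ˣ) : k) = 1 := by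
      simp
    rw [this, one_mul]
    exact ⟨_, rfl⟩
  · exfalso
    apply hnot a ha
    intro v _
    have h6 := hun v
    rw [hfinal] at h6
    exact unP_pow _ _ _ h6

end Pool.Agent.N806.OL.EXV
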